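import Mathlib.Data.Finset.Basic
import Mathlib.Data.Finset.Disjoint
import Mathlib.Data.Finset.Union

/-!
# Decomposable systems

A decomposable system describes a set of points `x : ι → α` by nodes. Every node `v` speaks about the
coordinates in `dom v`. A rule `(v, u, w)` says that a point is allowed for `v` if it is allowed for
`u` and for `w`, where `dom v` is the disjoint union of `dom u` and `dom w`; several rules with the same
`v` are alternatives. At the leaves there are arbitrary sets. This contains context-free grammars for
words of a fixed length, decomposable circuits (DNNFs), nondeterministic read-once branching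
programs and trellises.
-/

set_option autoImplicit false

namespace Pool.Agent.H723.Tree

/-- A decomposable system on the coordinates `ι`, with values in `α`. -/
structure Sys (ι α : Type) [DecidableEq ι] where
  /-- the nodes -/
  N : Type
  /-- the coordinates of a node -/
  dom : N → Finset ι
  /-- the start node -/
  root : N
  /-- the points which are allowed for a node as a leaf -/
  leaf : N → (ι → α) → Prop
  /-- the rules -/
  rules : Finset (N × N × N)
  leaf_congr : ∀ v x y, (∀ i ∈ dom v, x i = y i) → leaf v x → leaf v y
  rule_disj : ∀ v u w, (v, u, w) ∈ rules → Disjoint (dom u) (dom w)
  rule_dom : ∀ v u w, (v, u, w) ∈ rules → dom v = dom u ∪ dom w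

variable {ι α : Type} [DecidableEq ι]

/-- The point `x` is allowed for the node `v`. -/
inductive Sys.Allows (G : Sys ι α) : G.N → (ι → α) → Prop
  | leaf {v : G.N} {x : ι → α} : G.leaf v x → G.Allows v x
  | rule {v u w : G.N} {x : ι → α} : (v, u, w) ∈ G.rules →
      G.Allows u x → G.Allows w x → G.Allows v x

end Pool.Agent.H723.Tree
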