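import Mathlib.Analysis.InnerProductSpace.PiL2
import Pool.Agent.H723.Tree.Defs

/-! Definitions for kissing configurations which are generated by decomposable systems. -/

set_option autoImplicit false

namespace Pool.Agent.H723.Tree

/-- The finite or infinite set `X` is the set of all points whose coordinates with respect to the
orthonormal basis `b` are allowed by (the root of) the decomposable system `G`, each leaf of which
is a condition on at most `m` coordinates. -/
structure Generates {n : ℕ} (b : OrthonormalBasis (Fin n) ℝ (EuclideanSpace ℝ (Fin n)))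
    (G : Sys (Fin n) ℝ) (m : ℕ) (X : Set (EuclideanSpace ℝ (Fin n))) : Prop where
  dom_root : G.dom G.root = Finset.univ
  leaf_card : ∀ v x, G.leaf v x → (G.dom v).card ≤ m
  mem_iff : ∀ x, x ∈ X ↔ G.Allows G.root (fun i => b.repr x i)

/-- A kissing configuration: unit vectors with mutual angles at least `π / 3`. -/
def IsKissing {n : ℕ} (X : Finset (EuclideanSpace ℝ (Fin n))) : Prop :=
  (∀ x ∈ X, ‖x‖ = 1) ∧ ∀ x ∈ X, ∀ y ∈ X, x ≠ y → inner ℝ x y ≤ 1 / 2

/-- The least number of rules of a decomposable system whose leaves are conditions on single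
coordinates and which generates `X` in some orthonormal basis. -/
noncomputable def complexity {n : ℕ} (X : Finset (EuclideanSpace ℝ (Fin n))) : ℕ :=
  sInf {P | ∃ (b : OrthonormalBasis (Fin n) ℝ (EuclideanSpace ℝ (Fin n))) (G : Sys (Fin n) ℝ),
    Generates b G 1 X ∧ G.rules.card = P}

end Pool.Agent.H723.Tree
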