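import Mathlib.Data.Fintype.Option
import Mathlib.Data.Fintype.Sigma
import Mathlib.Data.Fintype.BigOperators
import Mathlib.Data.Finset.Powerset
import Mathlib.Tactic
import Pool.Agent.H723.Tree.Defs

/-! Cutting the derivations of a decomposable system: the covering theorem. -/

set_option autoImplicit false

namespace Pool.Agent.H723.Tree

variable {ι α : Type} [DecidableEq ι]

/-- `Gen G Z v S x`: the node `v` produces the restriction of `x` to `S`; the nodes in `Z` may be
left out (they are holes). -/
inductive Gen (G : Sys ι α) (Z : Set G.N) : G.N → Finset ι → (ι → α) → Prop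
  | hole {v : G.N} {x : ι → α} : v ∈ Z → Gen G Z v ∅ x
  | leaf {v : G.N} {x : ι → α} : G.leaf v x → Gen G Z v (G.dom v) x
  | rule {v u w : G.N} {S T : Finset ι} {x : ι → α} : (v, u, w) ∈ G.rules →
      Gen G Z u S x → Gen G Z w T x → Gen G Z v (S ∪ T) x

variable {G : Sys ι α} {Z : Set G.N}

theorem Gen.subset {v : G.N} {S : Finset ι} {x : ι → α} (h : Gen G Z v S x) : S ⊆ G.dom v := by
  induction h with
  | hole _ => exact Finset.empty_subset _
  | leaf _ => exact Finset.Subset.refl _
  | rule hr _ _ ih1 ih2 =>
    rw [G.rule_dom _ _ _ hr]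
    exact Finset.union_subset_union ih1 ih2

theorem Gen.congr {v : G.N} {S : Finset ι} {x y : ι → α} (h : Gen G Z v S x)
    (hxy : ∀ i ∈ S, x i = y i) : Gen G Z v S y := by
  induction h with
  | hole hz => exact Gen.hole hz
  | leaf hl => exact Gen.leaf (G.leaf_congr _ _ _ hxy hl)
  | rule hr _ _ ih1 ih2 =>
    exact Gen.rule hr (ih1 fun i hi => hxy i (Finset.mem_union_left _ hi))
      (ih2 fun i hi => hxy i (Finset.mem_union_right _ hi))

theorem Gen.uncovered {v : G.N} {S : Finset ι} {x : ι → α} (h : Gen G Z v S x) :
    ∀ i ∈ G.dom v, i ∉ S → ∃ z ∈ Z, i ∈ G.dom z := by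
  induction h with
  | hole hz => exact fun i hi _ => ⟨_, hz, hi⟩
  | leaf _ => exact fun i hi hn => absurd hi hn
  | rule hr _ _ ih1 ih2 =>
    intro i hi hn
    rw [G.rule_dom _ _ _ hr, Finset.mem_union] at hi
    rw [Finset.mem_union, not_or] at hn
    rcases hi with hi | hi
    · exact ih1 i hi hn.1
    · exact ih2 i hi hn.2

theorem Gen.plug {y v : G.N} {S T : Finset ι} {x : ι → α} (h : Gen G (insert v Z) y S x)
    (hv : Gen G Z v T x) : Gen G Z y S x ∨ Gen G Z y (S ∪ T) x := by
  induction h with
  | hole hz =>
    rcases hz with rfl | hz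
    · right
      rw [Finset.empty_union]
      exact hv
    · exact Or.inl (Gen.hole hz)
  | leaf hl => exact Or.inl (Gen.leaf hl)
  | @rule y u w S1 S2 x hr _ _ ih1 ih2 =>
    rcases ih1 hv with h1 | h1 <;> rcases ih2 hv with h2 | h2
    · exact Or.inl (Gen.rule hr h1 h2)
    · right
      have := Gen.rule hr h1 h2
      rwa [← Finset.union_assoc] at this
    · right
      have := Gen.rule hr h1 h2
      rwa [Finset.union_right_comm] at this
    · right
      have := Gen.rule hr h1 h2
      rwa [← Finset.union_union_distrib_right] at this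

theorem allows_iff {v : G.N} {x : ι → α} : G.Allows v x ↔ Gen G ∅ v (G.dom v) x := by
  constructor
  · intro h
    induction h with
    | leaf hl => exact Gen.leaf hl
    | rule hr _ _ ih1 ih2 =>
      rw [G.rule_dom _ _ _ hr]
      exact Gen.rule hr ih1 ih2
  · intro h
    have key : ∀ (v : G.N) (S : Finset ι) (x : ι → α), Gen G ∅ v S x → G.Allows v x := by
      intro v S x h
      induction h with
      | hole hz => exact absurd hz (Set.notMem_empty _)
      | leaf hl => exact Sys.Allows.leaf hl
      | rule hr _ _ ih1 ih2 => exact Sys.Allows.rule hr ih1 ih2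
    exact key v _ x h

/-- Cutting at a lowest heavy node. -/
theorem Gen.cut {H : Finset ι → Prop} (h0 : ¬ H ∅)
    {x : ι → α} (hleaf : ∀ v, G.leaf v x → ¬ H (G.dom v)) {y : G.N} {S : Finset ι}
    (h : Gen G Z y S x) (hS : H S) :
    ∃ v u w, (v, u, w) ∈ G.rules ∧ Gen G Z u (S ∩ G.dom u) x ∧ Gen G Z w (S ∩ G.dom w) x ∧
      H (S ∩ G.dom v) ∧ ¬ H (S ∩ G.dom u) ∧ ¬ H (S ∩ G.dom w) ∧
      Gen G (insert v Z) y (S \ G.dom v) x ∧ G.dom v ⊆ G.dom y := by
  induction h with
  | hole _ => exact absurd hS h0
  | leaf hl => exact absurd hS (hleaf _ hl)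
  | @rule y u w S1 S2 x hr h1 h2 ih1 ih2 =>
    have hdj := G.rule_disj _ _ _ hr
    have hdom := G.rule_dom _ _ _ hr
    have s1 := h1.subset
    have s2 := h2.subset
    have mono' : ∀ v (Z' : Set G.N), Z ⊆ Z' → ∀ (S : Finset ι), Gen G Z v S x → Gen G Z' v S x := by
      intro v Z' hZ S h
      clear * - h hZ
      induction h with
      | hole hz => exact Gen.hole (hZ hz)
      | leaf hl => exact Gen.leaf hl
      | rule hr _ _ ih1 ih2 => exact Gen.rule hr ih1 ih2
    by_cases hH1 : H S1
    · obtain ⟨v, u', w', hr', g1, g2, hh, hl1, hl2, g3, hsub⟩ := ih1 hleaf hH1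
      have hvu : G.dom v ⊆ G.dom u := hsub
      have hu'v : G.dom u' ⊆ G.dom v := by
        rw [G.rule_dom _ _ _ hr']; exact Finset.subset_union_left
      have hw'v : G.dom w' ⊆ G.dom v := by
        rw [G.rule_dom _ _ _ hr']; exact Finset.subset_union_right
      have key : ∀ D : Finset ι, D ⊆ G.dom v → (S1 ∪ S2) ∩ D = S1 ∩ D := by
        intro D hD
        ext i
        simp only [Finset.mem_inter, Finset.mem_union]
        constructor
        · rintro ⟨h | h, hi⟩
          · exact ⟨h, hi⟩
          · exact absurd (hvu (hD hi)) (Finset.disjoint_right.1 hdj (s2 h))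
        · rintro ⟨h, hi⟩
          exact ⟨Or.inl h, hi⟩
      have key2 : (S1 ∪ S2) \ G.dom v = (S1 \ G.dom v) ∪ S2 := by
        ext i
        simp only [Finset.mem_sdiff, Finset.mem_union]
        constructor
        · rintro ⟨h | h, hi⟩
          · exact Or.inl ⟨h, hi⟩
          · exact Or.inr h
        · rintro (⟨h, hi⟩ | h)
          · exact ⟨Or.inl h, hi⟩
          · exact ⟨Or.inr h, fun hi => Finset.disjoint_right.1 hdj (s2 h) (hvu hi)⟩
      refine ⟨v, u', w', hr', ?_, ?_, ?_, ?_, ?_, ?_, ?_⟩
      · rw [key _ hu'v]; exact g1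
      · rw [key _ hw'v]; exact g2
      · rw [key _ (Finset.Subset.refl _)]; exact hh
      · rw [key _ hu'v]; exact hl1
      · rw [key _ hw'v]; exact hl2
      · rw [key2]
        exact Gen.rule hr g3 (mono' _ _ (Set.subset_insert _ _) _ h2)
      · rw [hdom]
        exact hvu.trans Finset.subset_union_left
    · by_cases hH2 : H S2
      · obtain ⟨v, u', w', hr', g1, g2, hh, hl1, hl2, g3, hsub⟩ := ih2 hleaf hH2
        have hvw : G.dom v ⊆ G.dom w := hsub
        have hu'v : G.dom u' ⊆ G.dom v := by
          rw [G.rule_dom _ _ _ hr']; exact Finset.subset_union_left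
        have hw'v : G.dom w' ⊆ G.dom v := by
          rw [G.rule_dom _ _ _ hr']; exact Finset.subset_union_right
        have key : ∀ D : Finset ι, D ⊆ G.dom v → (S1 ∪ S2) ∩ D = S2 ∩ D := by
          intro D hD
          ext i
          simp only [Finset.mem_inter, Finset.mem_union]
          constructor
          · rintro ⟨h | h, hi⟩
            · exact absurd (hvw (hD hi)) (Finset.disjoint_left.1 hdj (s1 h))
            · exact ⟨h, hi⟩
          · rintro ⟨h, hi⟩
            exact ⟨Or.inr h, hi⟩
        have key2 : (S1 ∪ S2) \ G.dom v = S1 ∪ (S2 \ G.dom v) := by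
          ext i
          simp only [Finset.mem_sdiff, Finset.mem_union]
          constructor
          · rintro ⟨h | h, hi⟩
            · exact Or.inl h
            · exact Or.inr ⟨h, hi⟩
          · rintro (h | ⟨h, hi⟩)
            · exact ⟨Or.inl h, fun hi => Finset.disjoint_left.1 hdj (s1 h) (hvw hi)⟩
            · exact ⟨Or.inr h, hi⟩
        refine ⟨v, u', w', hr', ?_, ?_, ?_, ?_, ?_, ?_, ?_⟩
        · rw [key _ hu'v]; exact g1
        · rw [key _ hw'v]; exact g2
        · rw [key _ (Finset.Subset.refl _)]; exact hh
        · rw [key _ hu'v]; exact hl1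
        · rw [key _ hw'v]; exact hl2
        · rw [key2]
          exact Gen.rule hr (mono' _ _ (Set.subset_insert _ _) _ h1) g3
        · rw [hdom]
          exact hvw.trans Finset.subset_union_right
      · have e1 : (S1 ∪ S2) ∩ G.dom u = S1 := by
          ext i
          simp only [Finset.mem_inter, Finset.mem_union]
          constructor
          · rintro ⟨h | h, hi⟩
            · exact h
            · exact absurd hi (Finset.disjoint_right.1 hdj (s2 h))
          · intro h
            exact ⟨Or.inl h, s1 h⟩
        have e2 : (S1 ∪ S2) ∩ G.dom w = S2 := by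
          ext i
          simp only [Finset.mem_inter, Finset.mem_union]
          constructor
          · rintro ⟨h | h, hi⟩
            · exact absurd hi (Finset.disjoint_left.1 hdj (s1 h))
            · exact h
          · intro h
            exact ⟨Or.inr h, s2 h⟩
        have e3 : (S1 ∪ S2) ∩ G.dom y = S1 ∪ S2 := by
          rw [hdom]
          exact Finset.inter_eq_left.2 (Finset.union_subset_union s1 s2)
        have e4 : (S1 ∪ S2) \ G.dom y = ∅ := by
          rw [hdom]
          exact Finset.sdiff_eq_empty_iff_subset.2 (Finset.union_subset_union s1 s2)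
        refine ⟨y, u, w, hr, ?_, ?_, ?_, ?_, ?_, ?_, Finset.Subset.refl _⟩
        · rw [e1]; exact h1
        · rw [e2]; exact h2
        · rw [e3]; exact hS
        · rw [e1]; exact hH1
        · rw [e2]; exact hH2
        · rw [e4]; exact Gen.hole (Set.mem_insert _ _)

/-- At most `k` heavy pieces can be removed from `E` one after the other, and what remains after
removing any `k` of them is light. -/
def Few (heavy : Finset ι → Prop) : Finset ι → ℕ → Prop
  | E, 0 => ¬ heavy E
  | E, k + 1 => ∀ D ⊆ E, heavy D → Few heavy (E \ D) k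

/-- The parts of a class: at most `2 k + 1` disjoint sets with the union `E`. -/
structure IsParts (E : Finset ι) (k : ℕ) (𝒟 : Finset (Finset ι)) : Prop where
  card : 𝒟.card ≤ 2 * k + 1
  disj : (𝒟 : Set (Finset ι)).PairwiseDisjoint id
  sup : 𝒟.biUnion id = E

theorem IsParts.single (E : Finset ι) (k : ℕ) : IsParts E k {E} := by
  refine ⟨?_, ?_, ?_⟩
  · simp
  · intro a ha b hb hab
    simp only [Finset.coe_singleton, Set.mem_singleton_iff] at ha hb
    exact absurd (ha.trans hb.symm) hab
  · simp

/-- The covering theorem. `far D x y` says that the restrictions of `x` and `y` to `D` are far from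
each other. If changing an allowed point in the coordinates of `D` only is possible only by going
far, then the points with few heavy pieces fall in at most `(P + 1) ^ k` classes, `P` the number of
rules, such that each class has a partition of the coordinates in at most `2 k + 1` parts, light for
all its points, on each of which any two of its points are equal or far. -/
theorem cover (G : Sys ι α) (heavy : (ι → α) → Finset ι → Prop) (h0 : ∀ x, ¬ heavy x ∅)
    (hleaf : ∀ v x, G.leaf v x → ¬ heavy x (G.dom v))
    (far : Finset ι → (ι → α) → (ι → α) → Prop)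
    (hfar : ∀ D x y x' y', (∀ i ∈ D, x i = x' i) → (∀ i ∈ D, y i = y' i) → far D x y → far D x' y') :
    ∀ (k : ℕ) (Z : Set G.N) (E : Finset ι),
      (∀ i, i ∈ E ↔ i ∈ G.dom G.root ∧ ∀ z ∈ Z, i ∉ G.dom z) →
      (∀ x y, Gen G Z G.root E x → Gen G Z G.root E y → ∀ D ⊆ E, (∀ i ∈ E \ D, x i = y i) →
        (∃ i ∈ D, x i ≠ y i) → far D x y) →
      ∃ (κ : Type) (_ : Fintype κ) (cl : (ι → α) → κ) (parts : κ → Finset (Finset ι)),
        Fintype.card κ ≤ (G.rules.card + 1) ^ k ∧ (∀ c, IsParts E k (parts c)) ∧
        (∀ x, Gen G Z G.root E x → Few (heavy x) E k → ∀ D ∈ parts (cl x), ¬ heavy x D) ∧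
        (∀ x y, Gen G Z G.root E x → Gen G Z G.root E y → Few (heavy x) E k → Few (heavy y) E k →
          cl x = cl y → ∀ D ∈ parts (cl x), (∀ i ∈ D, x i = y i) ∨ far D x y) := by
  classical
  intro k
  induction k with
  | zero =>
    intro Z E hE hsep
    refine ⟨Unit, inferInstance, fun _ => (), fun _ => {E}, by simp, fun _ => IsParts.single _ _,
      ?_, ?_⟩
    · intro x _ hx D hD
      rw [Finset.mem_singleton] at hD
      rw [hD]
      exact hx
    · intro x y hx hy _ _ _ D hD
      rw [Finset.mem_singleton] at hD
      subst hD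
      by_cases h : ∀ i ∈ D, x i = y i
      · exact Or.inl h
      · right
        push Not at h
        exact hsep x y hx hy D (Finset.Subset.refl _)
          (fun i hi => by simp at hi) h
  | succ k ih =>
    intro Z E hE hsep
    -- plugging
    have plug : ∀ v x, Gen G (insert v Z) G.root (E \ G.dom v) x → Gen G Z v (E ∩ G.dom v) x →
        (E ∩ G.dom v).Nonempty → G.dom v ⊆ G.dom G.root → Gen G Z G.root E x := by
      intro v x h1 h2 ⟨i, hi⟩ _
      rcases h1.plug h2 with h | h
      · exfalso
        rw [Finset.mem_inter] at hi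
        have hiE := (hE i).1 hi.1
        obtain ⟨z, hz, hzi⟩ := h.uncovered i hiE.1 (fun hh => (Finset.mem_sdiff.1 hh).2 hi.2)
        exact hiE.2 z hz hzi
      · have : E \ G.dom v ∪ E ∩ G.dom v = E := Finset.sdiff_union_inter E (G.dom v)
        rwa [this] at h
    -- the data of a rule
    have data : ∀ ρ : G.rules, ∃ (κ : Type) (_ : Fintype κ) (cl : (ι → α) → κ)
        (parts : κ → Finset (Finset ι)),
        Fintype.card κ ≤ (G.rules.card + 1) ^ k ∧ (∀ c, IsParts (E \ G.dom ρ.1.1) k (parts c)) ∧
        ((E ∩ G.dom ρ.1.1).Nonempty → G.dom ρ.1.1 ⊆ G.dom G.root →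
          (∃ p, Gen G Z ρ.1.1 (E ∩ G.dom ρ.1.1) p) →
        (∀ x, Gen G (insert ρ.1.1 Z) G.root (E \ G.dom ρ.1.1) x →
          Few (heavy x) (E \ G.dom ρ.1.1) k → ∀ D ∈ parts (cl x), ¬ heavy x D) ∧
        (∀ x y, Gen G (insert ρ.1.1 Z) G.root (E \ G.dom ρ.1.1) x →
          Gen G (insert ρ.1.1 Z) G.root (E \ G.dom ρ.1.1) y →
          Few (heavy x) (E \ G.dom ρ.1.1) k → Few (heavy y) (E \ G.dom ρ.1.1) k →
          cl x = cl y → ∀ D ∈ parts (cl x), (∀ i ∈ D, x i = y i) ∨ far D x y)) := by
      intro ρ
      set v := ρ.1.1 with hv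
      by_cases hp : (E ∩ G.dom v).Nonempty ∧ G.dom v ⊆ G.dom G.root ∧
          ∃ p, Gen G Z v (E ∩ G.dom v) p
      · obtain ⟨hne, hsub, p, hp⟩ := hp
        have hE' : ∀ i, i ∈ E \ G.dom v ↔ i ∈ G.dom G.root ∧ ∀ z ∈ insert v Z, i ∉ G.dom z := by
          intro i
          rw [Finset.mem_sdiff, hE i]
          constructor
          · rintro ⟨⟨h1, h2⟩, h3⟩
            refine ⟨h1, ?_⟩
            rintro z (rfl | hz)
            · exact h3
            · exact h2 z hz
          · rintro ⟨h1, h2⟩
            exact ⟨⟨h1, fun z hz => h2 z (Set.mem_insert_of_mem _ hz)⟩, h2 v (Set.mem_insert _ _)⟩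
        have hsep' : ∀ x y, Gen G (insert v Z) G.root (E \ G.dom v) x →
            Gen G (insert v Z) G.root (E \ G.dom v) y → ∀ D ⊆ E \ G.dom v,
            (∀ i ∈ (E \ G.dom v) \ D, x i = y i) → (∃ i ∈ D, x i ≠ y i) → far D x y := by
          intro x y hx hy D hD hxy hne'
          let x' : ι → α := fun i => if i ∈ G.dom v then p i else x i
          let y' : ι → α := fun i => if i ∈ G.dom v then p i else y i
          have hx' : Gen G Z G.root E x' := by
            refine plug v x' (hx.congr ?_) (hp.congr ?_) hne hsub
            · intro i hi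
              simp [x', (Finset.mem_sdiff.1 hi).2]
            · intro i hi
              simp [x', (Finset.mem_inter.1 hi).2]
          have hy' : Gen G Z G.root E y' := by
            refine plug v y' (hy.congr ?_) (hp.congr ?_) hne hsub
            · intro i hi
              simp [y', (Finset.mem_sdiff.1 hi).2]
            · intro i hi
              simp [y', (Finset.mem_inter.1 hi).2]
          have hDv : ∀ i ∈ D, i ∉ G.dom v := fun i hi => (Finset.mem_sdiff.1 (hD hi)).2
          have := hsep x' y' hx' hy' D (hD.trans Finset.sdiff_subset) (by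
            intro i hi
            rw [Finset.mem_sdiff] at hi
            by_cases hiv : i ∈ G.dom v
            · simp [x', y', hiv]
            · simp only [x', y', hiv, if_false]
              exact hxy i (Finset.mem_sdiff.2 ⟨Finset.mem_sdiff.2 ⟨hi.1, hiv⟩, hi.2⟩)) (by
            obtain ⟨i, hi, hne'⟩ := hne'
            refine ⟨i, hi, ?_⟩
            simp only [x', y', hDv i hi, if_false]
            exact hne')
          refine hfar D x' y' x y ?_ ?_ this
          · intro i hi
            simp [x', hDv i hi]
          · intro i hi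
            simp [y', hDv i hi]
        obtain ⟨κ, inst, cl, parts, h1, h2, h3, h4⟩ := ih (insert v Z) (E \ G.dom v) hE' hsep'
        exact ⟨κ, inst, cl, parts, h1, h2, fun _ _ _ => ⟨h3, h4⟩⟩
      · refine ⟨Unit, inferInstance, fun _ => (), fun _ => {E \ G.dom v}, ?_,
          fun _ => IsParts.single _ _, ?_⟩
        · simp only [Fintype.card_unit]
          exact Nat.one_le_pow _ _ (Nat.succ_pos _)
        · intro a b c
          exact absurd ⟨a, b, c⟩ hp
    choose κ inst cl parts hcard hparts hprop using data
    -- the rule of a point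
    have hcut : ∀ x, Gen G Z G.root E x → heavy x E → ∃ ρ : G.rules,
        Gen G Z ρ.1.2.1 (E ∩ G.dom ρ.1.2.1) x ∧ Gen G Z ρ.1.2.2 (E ∩ G.dom ρ.1.2.2) x ∧
        heavy x (E ∩ G.dom ρ.1.1) ∧ ¬ heavy x (E ∩ G.dom ρ.1.2.1) ∧
        ¬ heavy x (E ∩ G.dom ρ.1.2.2) ∧
        Gen G (insert ρ.1.1 Z) G.root (E \ G.dom ρ.1.1) x ∧ G.dom ρ.1.1 ⊆ G.dom G.root := by
      intro x hx hh
      obtain ⟨v, u, w, hr, g1, g2, g3, g4, g5, g6, g7⟩ :=
        hx.cut (H := heavy x) (h0 x) (fun v hv => hleaf v x hv) hh
      exact ⟨⟨(v, u, w), hr⟩, g1, g2, g3, g4, g5, g6, g7⟩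
    let rl : (ι → α) → Option G.rules := fun x =>
      if h : Gen G Z G.root E x ∧ heavy x E then some (hcut x h.1 h.2).choose else none
    have hrl_none : ∀ x, Gen G Z G.root E x → rl x = none → ¬ heavy x E := by
      intro x hx hn hh
      simp only [rl] at hn
      rw [dif_pos ⟨hx, hh⟩] at hn
      exact absurd hn (by simp)
    have hrl_some : ∀ x ρ, rl x = some ρ →
        Gen G Z ρ.1.2.1 (E ∩ G.dom ρ.1.2.1) x ∧ Gen G Z ρ.1.2.2 (E ∩ G.dom ρ.1.2.2) x ∧
        heavy x (E ∩ G.dom ρ.1.1) ∧ ¬ heavy x (E ∩ G.dom ρ.1.2.1) ∧
        ¬ heavy x (E ∩ G.dom ρ.1.2.2) ∧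
        Gen G (insert ρ.1.1 Z) G.root (E \ G.dom ρ.1.1) x ∧ G.dom ρ.1.1 ⊆ G.dom G.root := by
      intro x ρ hρ
      simp only [rl] at hρ
      by_cases h : Gen G Z G.root E x ∧ heavy x E
      · rw [dif_pos h] at hρ
        have := (hcut x h.1 h.2).choose_spec
        rw [Option.some.injEq] at hρ
        rw [hρ] at this
        exact this
      · rw [dif_neg h] at hρ
        exact absurd hρ (by simp)
    let CL : (ι → α) → Option (Σ ρ : G.rules, κ ρ) := fun x =>
      (rl x).map fun ρ => ⟨ρ, cl ρ x⟩
    let PARTS : Option (Σ ρ : G.rules, κ ρ) → Finset (Finset ι) := fun o =>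
      match o with
      | none => {E}
      | some ⟨ρ, c⟩ => insert (E ∩ G.dom ρ.1.2.1) (insert (E ∩ G.dom ρ.1.2.2) (parts ρ c))
    have hCLn : ∀ x, rl x = none → CL x = none := by
      intro x hx
      simp [CL, hx]
    have hCLs : ∀ x ρ, rl x = some ρ → CL x = some ⟨ρ, cl ρ x⟩ := by
      intro x ρ hx
      simp [CL, hx]
    refine ⟨Option (Σ ρ : G.rules, κ ρ), inferInstance, CL, PARTS, ?_, ?_, ?_, ?_⟩
    · rw [Fintype.card_option, Fintype.card_sigma]
      calc ∑ ρ : G.rules, Fintype.card (κ ρ) + 1
          ≤ ∑ _ρ : G.rules, (G.rules.card + 1) ^ k + (G.rules.card + 1) ^ k := by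
            refine Nat.add_le_add (Finset.sum_le_sum fun ρ _ => hcard ρ) ?_
            exact Nat.one_le_pow _ _ (Nat.succ_pos _)
        _ = (G.rules.card + 1) ^ (k + 1) := by
            rw [Finset.sum_const, Finset.card_univ, Fintype.card_coe, smul_eq_mul]
            ring
    · rintro (_ | ⟨ρ, c⟩)
      · exact IsParts.single _ _
      · have hP := hparts ρ c
        have hdj := G.rule_disj ρ.1.1 ρ.1.2.1 ρ.1.2.2 ρ.2
        have hdom := G.rule_dom ρ.1.1 ρ.1.2.1 ρ.1.2.2 ρ.2
        have hsubP : ∀ D ∈ parts ρ c, D ⊆ E \ G.dom ρ.1.1 := by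
          intro D hD
          rw [← hP.sup]
          exact Finset.subset_biUnion_of_mem id hD
        have d1 : ∀ D ∈ parts ρ c, Disjoint (E ∩ G.dom ρ.1.2.1) D := by
          intro D hD
          rw [Finset.disjoint_left]
          intro i hi hi'
          have := Finset.mem_sdiff.1 (hsubP D hD hi')
          refine this.2 ?_
          rw [hdom]
          exact Finset.mem_union_left _ (Finset.mem_inter.1 hi).2
        have d2 : ∀ D ∈ parts ρ c, Disjoint (E ∩ G.dom ρ.1.2.2) D := by
          intro D hD
          rw [Finset.disjoint_left]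
          intro i hi hi'
          have := Finset.mem_sdiff.1 (hsubP D hD hi')
          refine this.2 ?_
          rw [hdom]
          exact Finset.mem_union_right _ (Finset.mem_inter.1 hi).2
        have d3 : Disjoint (E ∩ G.dom ρ.1.2.1) (E ∩ G.dom ρ.1.2.2) := by
          rw [Finset.disjoint_left]
          intro i hi hi'
          exact Finset.disjoint_left.1 hdj (Finset.mem_inter.1 hi).2 (Finset.mem_inter.1 hi').2
        refine ⟨?_, ?_, ?_⟩
        · show (insert (E ∩ G.dom ρ.1.2.1) (insert (E ∩ G.dom ρ.1.2.2) (parts ρ c))).card ≤ _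
          have h1 := Finset.card_insert_le (E ∩ G.dom ρ.1.2.1)
            (insert (E ∩ G.dom ρ.1.2.2) (parts ρ c))
          have h2 := Finset.card_insert_le (E ∩ G.dom ρ.1.2.2) (parts ρ c)
          have h3 := hP.card
          omega
        · show ((insert (E ∩ G.dom ρ.1.2.1) (insert (E ∩ G.dom ρ.1.2.2) (parts ρ c)) :
            Finset (Finset ι)) : Set (Finset ι)).PairwiseDisjoint id
          rw [Finset.coe_insert, Finset.coe_insert]
          refine Set.PairwiseDisjoint.insert (Set.PairwiseDisjoint.insert hP.disj ?_) ?_
          · intro D hD _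
            exact d2 D hD
          · intro D hD _
            rcases hD with rfl | hD
            · exact d3
            · exact d1 D hD
        · show (insert (E ∩ G.dom ρ.1.2.1) (insert (E ∩ G.dom ρ.1.2.2) (parts ρ c))).biUnion id = E
          rw [Finset.biUnion_insert, Finset.biUnion_insert, hP.sup]
          ext i
          simp only [id, Finset.mem_union, Finset.mem_inter, Finset.mem_sdiff, hdom]
          tauto
    · intro x hx hfew D hD
      rcases hr : rl x with _ | ρ
      · rw [hCLn x hr] at hD
        change D ∈ ({E} : Finset (Finset ι)) at hD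
        rw [Finset.mem_singleton] at hD
        rw [hD]
        exact hrl_none x hx hr
      · rw [hCLs x ρ hr] at hD
        change D ∈ insert (E ∩ G.dom ρ.1.2.1) (insert (E ∩ G.dom ρ.1.2.2) (parts ρ (cl ρ x))) at hD
        obtain ⟨g1, g2, g3, g4, g5, g6, g7⟩ := hrl_some x ρ hr
        rw [Finset.mem_insert, Finset.mem_insert] at hD
        rcases hD with rfl | rfl | hD
        · exact g4
        · exact g5
        · have hne : (E ∩ G.dom ρ.1.1).Nonempty := by
            rw [Finset.nonempty_iff_ne_empty]
            intro he
            rw [he] at g3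
            exact h0 x g3
          have hgv : Gen G Z ρ.1.1 (E ∩ G.dom ρ.1.1) x := by
            have := Gen.rule ρ.2 g1 g2
            rwa [← Finset.inter_union_distrib_left, ← G.rule_dom ρ.1.1 ρ.1.2.1 ρ.1.2.2 ρ.2] at this
          have hfew' : Few (heavy x) (E \ G.dom ρ.1.1) k := by
            have := hfew (E ∩ G.dom ρ.1.1) Finset.inter_subset_left g3
            rwa [Finset.sdiff_inter_self_left] at this
          exact (hprop ρ hne g7 ⟨x, hgv⟩).1 x g6 hfew' D hD
    · intro x y hx hy hfx hfy hxy D hD
      rcases hrx : rl x with _ | ρ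
      · rcases hry : rl y with _ | ρ'
        · rw [hCLn x hrx] at hD
          change D ∈ ({E} : Finset (Finset ι)) at hD
          rw [Finset.mem_singleton] at hD
          subst hD
          by_cases h : ∀ i ∈ D, x i = y i
          · exact Or.inl h
          · right
            push Not at h
            exact hsep x y hx hy D (Finset.Subset.refl _) (fun i hi => by simp at hi) h
        · rw [hCLn x hrx, hCLs y ρ' hry] at hxy
          exact absurd hxy (by simp)
      · rcases hry : rl y with _ | ρ'
        · rw [hCLn y hry, hCLs x ρ hrx] at hxy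
          exact absurd hxy (by simp)
        · have hD0 := hD
          rw [hCLs x ρ hrx] at hD
          rw [hCLs x ρ hrx, hCLs y ρ' hry, Option.some.injEq] at hxy
          have hρ : ρ' = ρ := (Sigma.mk.inj_iff.1 hxy).1.symm
          subst hρ
          have hcl : cl ρ' x = cl ρ' y := eq_of_heq (Sigma.mk.inj_iff.1 hxy).2
          change D ∈ insert (E ∩ G.dom ρ'.1.2.1)
            (insert (E ∩ G.dom ρ'.1.2.2) (parts ρ' (cl ρ' x))) at hD
          obtain ⟨g1, g2, g3, g4, g5, g6, g7⟩ := hrl_some x ρ' hrx
          obtain ⟨f1, f2, f3, f4, f5, f6, f7⟩ := hrl_some y ρ' hry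
          have hdj := G.rule_disj ρ'.1.1 ρ'.1.2.1 ρ'.1.2.2 ρ'.2
          have hdom := G.rule_dom ρ'.1.1 ρ'.1.2.1 ρ'.1.2.2 ρ'.2
          have hne : (E ∩ G.dom ρ'.1.1).Nonempty := by
            rw [Finset.nonempty_iff_ne_empty]
            intro he
            rw [he] at g3
            exact h0 x g3
          -- a general swap
          have swap : ∀ z : ι → α, Gen G Z ρ'.1.2.1 (E ∩ G.dom ρ'.1.2.1) z →
              Gen G Z ρ'.1.2.2 (E ∩ G.dom ρ'.1.2.2) z →
              Gen G (insert ρ'.1.1 Z) G.root (E \ G.dom ρ'.1.1) z → Gen G Z G.root E z := by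
            intro z z1 z2 z3
            refine plug ρ'.1.1 z z3 ?_ hne g7
            have := Gen.rule ρ'.2 z1 z2
            rwa [← Finset.inter_union_distrib_left, ← hdom] at this
          rw [Finset.mem_insert, Finset.mem_insert] at hD
          rcases hD with hD | hD | hD
          · by_cases h : ∀ i ∈ D, x i = y i
            · exact Or.inl h
            · right
              push Not at h
              let z : ι → α := fun i => if i ∈ D then y i else x i
              have hz : Gen G Z G.root E z := by
                refine swap z (f1.congr ?_) (g2.congr ?_) (g6.congr ?_)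
                · intro i hi
                  have : i ∈ D := by rw [hD]; exact hi
                  simp [z, this]
                · intro i hi
                  have : i ∉ D := by
                    rw [hD]
                    intro hh
                    exact Finset.disjoint_left.1 hdj (Finset.mem_inter.1 hh).2
                      (Finset.mem_inter.1 hi).2
                  simp [z, this]
                · intro i hi
                  have : i ∉ D := by
                    rw [hD]
                    intro hh
                    refine (Finset.mem_sdiff.1 hi).2 ?_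
                    rw [hdom]
                    exact Finset.mem_union_left _ (Finset.mem_inter.1 hh).2
                  simp [z, this]
              have hDE : D ⊆ E := by rw [hD]; exact Finset.inter_subset_left
              have := hsep x z hx hz D hDE (by
                intro i hi
                simp [z, (Finset.mem_sdiff.1 hi).2]) (by
                obtain ⟨i, hi, hne'⟩ := h
                exact ⟨i, hi, by simpa [z, hi] using hne'⟩)
              refine hfar D x z x y (fun _ _ => rfl) ?_ this
              intro i hi
              simp [z, hi]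
          · by_cases h : ∀ i ∈ D, x i = y i
            · exact Or.inl h
            · right
              push Not at h
              let z : ι → α := fun i => if i ∈ D then y i else x i
              have hz : Gen G Z G.root E z := by
                refine swap z (g1.congr ?_) (f2.congr ?_) (g6.congr ?_)
                · intro i hi
                  have : i ∉ D := by
                    rw [hD]
                    intro hh
                    exact Finset.disjoint_left.1 hdj (Finset.mem_inter.1 hi).2
                      (Finset.mem_inter.1 hh).2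
                  simp [z, this]
                · intro i hi
                  have : i ∈ D := by rw [hD]; exact hi
                  simp [z, this]
                · intro i hi
                  have : i ∉ D := by
                    rw [hD]
                    intro hh
                    refine (Finset.mem_sdiff.1 hi).2 ?_
                    rw [hdom]
                    exact Finset.mem_union_right _ (Finset.mem_inter.1 hh).2
                  simp [z, this]
              have hDE : D ⊆ E := by rw [hD]; exact Finset.inter_subset_left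
              have := hsep x z hx hz D hDE (by
                intro i hi
                simp [z, (Finset.mem_sdiff.1 hi).2]) (by
                obtain ⟨i, hi, hne'⟩ := h
                exact ⟨i, hi, by simpa [z, hi] using hne'⟩)
              refine hfar D x z x y (fun _ _ => rfl) ?_ this
              intro i hi
              simp [z, hi]
          · have hgv : Gen G Z ρ'.1.1 (E ∩ G.dom ρ'.1.1) x := by
              have := Gen.rule ρ'.2 g1 g2
              rwa [← Finset.inter_union_distrib_left, ← hdom] at this
            have hfx' : Few (heavy x) (E \ G.dom ρ'.1.1) k := by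
              have := hfx (E ∩ G.dom ρ'.1.1) Finset.inter_subset_left g3
              rwa [Finset.sdiff_inter_self_left] at this
            have hfy' : Few (heavy y) (E \ G.dom ρ'.1.1) k := by
              have := hfy (E ∩ G.dom ρ'.1.1) Finset.inter_subset_left f3
              rwa [Finset.sdiff_inter_self_left] at this
            exact (hprop ρ' hne g7 ⟨x, hgv⟩).2 x y g6 f6 hfx' hfy' hcl D hD

end Pool.Agent.H723.Tree
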