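import Mathlib.Analysis.InnerProductSpace.PiL2
import Mathlib.Analysis.InnerProductSpace.Projection.FiniteDimensional
import Pool.Agent.H723.Tree.Cover

/-! Counting the points of a class, and sets of vectors with nonpositive inner products. -/

set_option autoImplicit false

namespace Pool.Agent.H723.Tree

open Finset

variable {ι α : Type} [DecidableEq ι]

/-- restriction to `D`, with the value `a` elsewhere -/
def restr (a : α) (D : Finset ι) (x : ι → α) : ι → α := fun i => if i ∈ D then x i else a

theorem restr_eq {a : α} {D : Finset ι} {x y : ι → α} (h : restr a D x = restr a D y) :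
    ∀ i ∈ D, x i = y i := by
  intro i hi
  have := congrFun h i
  simpa [restr, hi] using this

open Classical in
/-- A set of points is at most the product of the numbers of its restrictions to the parts of a
partition of the coordinates. -/
theorem card_le_pow [Fintype ι] (a : α) (X : Finset (ι → α)) (𝒟 : Finset (Finset ι)) (M : ℕ)
    (hsup : 𝒟.biUnion id = Finset.univ)
    (hM : ∀ D ∈ 𝒟, (X.image (restr a D)).card ≤ M) : X.card ≤ M ^ 𝒟.card := by
  have hinj : Set.InjOn (fun (x : ι → α) (D : 𝒟) => restr a D.1 x) (X : Set (ι → α)) := by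
    intro x _ y _ hxy
    funext i
    have hi : i ∈ 𝒟.biUnion id := by rw [hsup]; exact Finset.mem_univ i
    obtain ⟨D, hD, hiD⟩ := Finset.mem_biUnion.1 hi
    exact restr_eq (congrFun hxy ⟨D, hD⟩) i hiD
  calc X.card = (X.image (fun (x : ι → α) (D : 𝒟) => restr a D.1 x)).card :=
        (Finset.card_image_of_injOn hinj).symm
    _ ≤ (Fintype.piFinset (fun D : 𝒟 => X.image (restr a D.1))).card := by
        apply Finset.card_le_card
        intro f hf
        obtain ⟨x, hx, rfl⟩ := Finset.mem_image.1 hf
        rw [Fintype.mem_piFinset]
        intro D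
        exact Finset.mem_image_of_mem _ hx
    _ = ∏ D : 𝒟, (X.image (restr a D.1)).card := Fintype.card_piFinset _
    _ ≤ ∏ _D : 𝒟, M := Finset.prod_le_prod' fun D _ => hM D.1 D.2
    _ = M ^ 𝒟.card := by rw [Finset.prod_const, Finset.card_univ, Fintype.card_coe]

/-- At most `2 dim V` nonzero vectors have nonpositive mutual inner products. -/
theorem card_obtuse (N : ℕ) : ∀ (V : Type) [NormedAddCommGroup V] [InnerProductSpace ℝ V]
    [FiniteDimensional ℝ V], Module.finrank ℝ V = N → ∀ S : Finset V, (∀ v ∈ S, v ≠ 0) →
    (∀ v ∈ S, ∀ w ∈ S, v ≠ w → inner ℝ v w ≤ 0) → S.card ≤ 2 * N := by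
  classical
  induction N with
  | zero =>
    intro V _ _ _ hV S hS _
    have : Subsingleton V := Module.finrank_zero_iff.1 hV
    rw [Nat.mul_zero, Nat.le_zero, Finset.card_eq_zero]
    by_contra hne
    obtain ⟨v, hv⟩ := Finset.nonempty_iff_ne_empty.2 hne
    exact hS v hv (Subsingleton.elim v 0)
  | succ N ih =>
    intro V _ _ _ hV S hS hinner
    rcases S.eq_empty_or_nonempty with rfl | ⟨v, hv⟩
    · simp
    have hv0 := hS v hv
    set K : Submodule ℝ V := (Submodule.span ℝ {v})ᗮ with hK
    have hdim : Module.finrank ℝ K = N := by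
      have h1 := Submodule.finrank_add_finrank_orthogonal (Submodule.span ℝ {v})
      rw [finrank_span_singleton hv0, hV] at h1
      have h2 : Module.finrank ℝ K = Module.finrank ℝ (Submodule.span ℝ {v})ᗮ := rfl
      omega
    have hvv : 0 < inner ℝ v v := by
      rw [real_inner_self_eq_norm_sq]
      have := norm_pos_iff.2 hv0
      positivity
    -- the projection
    let p : V → K := fun u => ⟨u - (inner ℝ v u / inner ℝ v v) • v, by
      rw [hK, Submodule.mem_orthogonal_singleton_iff_inner_right, inner_sub_right,
        inner_smul_right, div_mul_cancel₀ _ hvv.ne', sub_self]⟩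
    have hp : ∀ u w, inner ℝ (p u) (p w) = inner ℝ u w - inner ℝ v u * inner ℝ v w / inner ℝ v v := by
      intro u w
      change inner ℝ (u - (inner ℝ v u / inner ℝ v v) • v) (w - (inner ℝ v w / inner ℝ v v) • v) = _
      rw [inner_sub_left, inner_sub_right, inner_sub_right, inner_smul_left, inner_smul_right,
        inner_smul_left, inner_smul_right, real_inner_comm v u]
      simp only [conj_trivial]
      field_simp
      ring
    set T := S.erase v with hT
    have hTv : ∀ u ∈ T, inner ℝ v u ≤ 0 := fun u hu =>
      hinner v hv u (Finset.mem_of_mem_erase hu) (Finset.ne_of_mem_erase hu).symm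
    have hpp : ∀ u ∈ T, ∀ w ∈ T, u ≠ w → inner ℝ (p u) (p w) ≤ 0 := by
      intro u hu w hw huw
      rw [hp]
      have h1 := hinner u (Finset.mem_of_mem_erase hu) w (Finset.mem_of_mem_erase hw) huw
      have h2 : 0 ≤ inner ℝ v u * inner ℝ v w :=
        mul_nonneg_of_nonpos_of_nonpos (hTv u hu) (hTv w hw)
      have h3 : 0 ≤ inner ℝ v u * inner ℝ v w / inner ℝ v v := div_nonneg h2 hvv.le
      linarith
    -- vectors with zero projection
    have hz : (T.filter fun u => p u = 0).card ≤ 1 := by
      rw [Finset.card_le_one]
      intro u hu w hw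
      rw [Finset.mem_filter] at hu hw
      by_contra huw
      have hu' : u = (inner ℝ v u / inner ℝ v v) • v := by
        have := congrArg Subtype.val hu.2
        exact sub_eq_zero.1 this
      have hw' : w = (inner ℝ v w / inner ℝ v v) • v := by
        have := congrArg Subtype.val hw.2
        exact sub_eq_zero.1 this
      have hun : inner ℝ v u < 0 := by
        rcases lt_or_eq_of_le (hTv u hu.1) with h | h
        · exact h
        · exfalso
          rw [h, zero_div, zero_smul] at hu'
          exact hS u (Finset.mem_of_mem_erase hu.1) hu'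
      have hwn : inner ℝ v w < 0 := by
        rcases lt_or_eq_of_le (hTv w hw.1) with h | h
        · exact h
        · exfalso
          rw [h, zero_div, zero_smul] at hw'
          exact hS w (Finset.mem_of_mem_erase hw.1) hw'
      have h1 := hinner u (Finset.mem_of_mem_erase hu.1) w (Finset.mem_of_mem_erase hw.1) huw
      rw [hu', inner_smul_left] at h1
      simp only [conj_trivial] at h1
      have h2 : 0 < inner ℝ v u / inner ℝ v v * inner ℝ v w :=
        mul_pos_of_neg_of_neg (div_neg_of_neg_of_pos hun hvv) hwn
      linarith
    -- vectors with nonzero projection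
    have hnz : (T.filter fun u => ¬ p u = 0).card ≤ 2 * N := by
      have hinj : Set.InjOn p (T.filter fun u => ¬ p u = 0 : Finset V) := by
        intro u hu w hw huw
        rw [Finset.mem_coe, Finset.mem_filter] at hu hw
        by_contra hne
        have h1 := hpp u hu.1 w hw.1 hne
        rw [← huw, real_inner_self_eq_norm_sq] at h1
        have := norm_pos_iff.2 hu.2
        nlinarith
      rw [← Finset.card_image_of_injOn hinj]
      refine ih K hdim _ ?_ ?_
      · intro z hz
        obtain ⟨u, hu, rfl⟩ := Finset.mem_image.1 hz
        exact (Finset.mem_filter.1 hu).2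
      · intro z hz z' hz' hne
        obtain ⟨u, hu, rfl⟩ := Finset.mem_image.1 hz
        obtain ⟨w, hw, rfl⟩ := Finset.mem_image.1 hz'
        exact hpp u (Finset.mem_filter.1 hu).1 w (Finset.mem_filter.1 hw).1
          (fun h => hne (by rw [h]))
    have h1 := Finset.card_filter_add_card_filter_not (s := T) (fun u => p u = 0)
    have h2 : T.card + 1 = S.card := Finset.card_erase_add_one hv
    omega

end Pool.Agent.H723.Tree
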