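import Pool.Agent.H723.Tree.Cover

/-! The decomposable system which lists the points of a finite set. -/

set_option autoImplicit false

namespace Pool.Agent.H723.Tree

open Finset

theorem allows_cases {ι α : Type} [DecidableEq ι] {G : Sys ι α} {v : G.N} {x : ι → α} :
    G.Allows v x ↔ G.leaf v x ∨ ∃ u w, (v, u, w) ∈ G.rules ∧ G.Allows u x ∧ G.Allows w x := by
  constructor
  · intro h
    cases h with
    | leaf h => exact Or.inl h
    | rule hr h1 h2 => exact Or.inr ⟨_, _, hr, h1, h2⟩
  · rintro (h | ⟨u, w, hr, h1, h2⟩)
    · exact Sys.Allows.leaf h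
    · exact Sys.Allows.rule hr h1 h2

variable {n : ℕ} {α : Type}

/-- the nodes: the root, a node without coordinates, the prefixes and the entries of points -/
inductive LNode (n : ℕ) (α : Type) : Type
  | root : LNode n α
  | empty : LNode n α
  | pre (x : Fin n → α) (t : ℕ) : LNode n α
  | pt (x : Fin n → α) (t : ℕ) : LNode n α

/-- the coordinates of a node -/
def ldom : LNode n α → Finset (Fin n)
  | .root => Finset.univ
  | .empty => ∅
  | .pre _ t => Finset.univ.filter (fun i : Fin n => i.1 < t)
  | .pt _ t => Finset.univ.filter (fun i : Fin n => i.1 = t)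

/-- the leaves -/
def lleaf : LNode n α → (Fin n → α) → Prop
  | .root, _ => False
  | .empty, _ => True
  | .pre _ t, _ => t = 0
  | .pt x t, z => ∀ i : Fin n, i.1 = t → z i = x i

open Classical in
/-- the rules -/
noncomputable def lrules (X : Finset (Fin n → α)) : Finset (LNode n α × LNode n α × LNode n α) :=
  (X.image fun x => (LNode.root, LNode.pre x n, LNode.empty)) ∪
    ((X ×ˢ Finset.range n).image fun p => (LNode.pre p.1 (p.2 + 1), LNode.pre p.1 p.2, LNode.pt p.1 p.2))

theorem mem_lrules {X : Finset (Fin n → α)} {v u w : LNode n α} : (v, u, w) ∈ lrules X ↔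
    (∃ x ∈ X, v = .root ∧ u = .pre x n ∧ w = .empty) ∨
    (∃ x ∈ X, ∃ t < n, v = .pre x (t + 1) ∧ u = .pre x t ∧ w = .pt x t) := by
  classical
  unfold lrules
  rw [Finset.mem_union, Finset.mem_image, Finset.mem_image]
  constructor
  · rintro (⟨x, hx, he⟩ | ⟨p, hp, he⟩)
    · simp only [Prod.mk.injEq] at he
      exact Or.inl ⟨x, hx, he.1.symm, he.2.1.symm, he.2.2.symm⟩
    · simp only [Prod.mk.injEq] at he
      rw [Finset.mem_product, Finset.mem_range] at hp
      exact Or.inr ⟨p.1, hp.1, p.2, hp.2, he.1.symm, he.2.1.symm, he.2.2.symm⟩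
  · rintro (⟨x, hx, rfl, rfl, rfl⟩ | ⟨x, hx, t, ht, rfl, rfl, rfl⟩)
    · exact Or.inl ⟨x, hx, rfl⟩
    · exact Or.inr ⟨(x, t), by rw [Finset.mem_product, Finset.mem_range]; exact ⟨hx, ht⟩, rfl⟩

theorem card_lrules (X : Finset (Fin n → α)) : (lrules X).card ≤ (n + 1) * X.card := by
  classical
  unfold lrules
  refine (Finset.card_union_le _ _).trans ?_
  have h1 := Finset.card_image_le (s := X) (f := fun x =>
    ((LNode.root, LNode.pre x n, LNode.empty) : LNode n α × LNode n α × LNode n α))
  have h2 := Finset.card_image_le (s := X ×ˢ Finset.range n) (f := fun p =>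
    ((LNode.pre p.1 (p.2 + 1), LNode.pre p.1 p.2, LNode.pt p.1 p.2) :
      LNode n α × LNode n α × LNode n α))
  rw [Finset.card_product, Finset.card_range] at h2
  calc _ ≤ X.card + X.card * n := Nat.add_le_add h1 h2
    _ = (n + 1) * X.card := by ring

/-- the system which lists the points of a finite set -/
noncomputable def listSys (X : Finset (Fin n → α)) : Sys (Fin n) α where
  N := LNode n α
  dom := ldom
  root := .root
  leaf := lleaf
  rules := lrules X
  leaf_congr := by
    intro v x y hxy h
    match v, hxy, h with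
    | .root, _, h => exact h
    | .empty, _, _ => exact trivial
    | .pre _ _, _, h => exact h
    | .pt p t, hxy, h =>
      intro i hi
      rw [← hxy i (by simpa [ldom] using hi)]
      exact h i hi
  rule_disj := by
    intro v u w h
    rcases mem_lrules.1 h with ⟨x, hx, rfl, rfl, rfl⟩ | ⟨x, hx, t, ht, rfl, rfl, rfl⟩
    · exact Finset.disjoint_empty_right _
    · rw [Finset.disjoint_left]
      intro i hi hi'
      simp only [ldom, Finset.mem_filter, Finset.mem_univ, true_and] at hi hi'
      omega
  rule_dom := by
    intro v u w h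
    rcases mem_lrules.1 h with ⟨x, hx, rfl, rfl, rfl⟩ | ⟨x, hx, t, ht, rfl, rfl, rfl⟩
    · ext i
      simp [ldom]
    · ext i
      simp only [ldom, Finset.mem_filter, Finset.mem_univ, true_and, Finset.mem_union]
      omega

theorem listSys_rules (X : Finset (Fin n → α)) :
    (listSys X).rules.card ≤ (n + 1) * X.card := card_lrules X

theorem listSys_leaf (X : Finset (Fin n → α)) (v : (listSys X).N) (x : Fin n → α)
    (h : (listSys X).leaf v x) : ((listSys X).dom v).card ≤ 1 := by
  change (ldom v).card ≤ 1
  change lleaf v x at h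
  cases v with
  | root => exact absurd h (by exact id)
  | empty => simp [ldom]
  | pre p t =>
    have : t = 0 := h
    simp [ldom, this]
  | pt p t =>
    unfold ldom
    rw [Finset.card_le_one]
    intro i hi j hj
    simp only [Finset.mem_filter, Finset.mem_univ, true_and] at hi hj
    exact Fin.ext (hi.trans hj.symm)

theorem listSys_allows (X : Finset (Fin n → α)) (z : Fin n → α) :
    (listSys X).Allows (listSys X).root z ↔ z ∈ X := by
  have leafR : ∀ (x : Fin n → α) (t : ℕ),
      (listSys X).Allows (LNode.pt x t : LNode n α) z ↔ ∀ i : Fin n, i.1 = t → z i = x i := by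
    intro x t
    refine (allows_cases (G := listSys X) (v := (LNode.pt x t : LNode n α))).trans ?_
    constructor
    · rintro (h | ⟨u, w, hr, _, _⟩)
      · exact h
      · exfalso
        rcases mem_lrules.1 hr with ⟨_, _, h, _⟩ | ⟨_, _, _, _, h, _⟩ <;> cases h
    · intro h
      exact Or.inl h
  have pref : ∀ (x : Fin n → α), x ∈ X → ∀ t : ℕ, t ≤ n →
      ((listSys X).Allows (LNode.pre x t : LNode n α) z ↔ ∀ i : Fin n, i.1 < t → z i = x i) := by
    intro x hx t
    induction t with
    | zero =>
      intro _
      constructor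
      · intro _ i hi
        omega
      · intro _
        exact allows_cases.2 (Or.inl (show (0 : ℕ) = 0 from rfl))
    | succ t ih =>
      intro ht
      have ih := ih (by omega)
      constructor
      · intro h
        rcases allows_cases.1 h with h | ⟨u, w, hr, h1, h2⟩
        · exact absurd (show t + 1 = 0 from h) (by omega)
        · rcases mem_lrules.1 hr with ⟨_, _, h, _⟩ | ⟨y, hy, s, hs, h3, rfl, rfl⟩
          · cases h
          · obtain ⟨rfl, h3⟩ := LNode.pre.inj h3
            obtain rfl : t = s := by omega
            have h4 := ih.1 h1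
            have h5 := (leafR _ _).1 h2
            intro i hi
            rcases Nat.lt_succ_iff_lt_or_eq.1 hi with hi | hi
            · exact h4 i hi
            · exact h5 i hi
      · intro h
        refine allows_cases.2 (Or.inr ⟨LNode.pre x t, LNode.pt x t, ?_,
          ih.2 fun i hi => h i (by omega), (leafR _ _).2 fun i hi => h i (by omega)⟩)
        exact mem_lrules.2 (Or.inr ⟨x, hx, t, ht, rfl, rfl, rfl⟩)
  rw [allows_cases]
  constructor
  · rintro (h | ⟨u, w, hr, h1, h2⟩)
    · exact absurd h (by exact id)
    · rcases mem_lrules.1 hr with ⟨x, hx, _, rfl, rfl⟩ | ⟨_, _, _, _, h, _⟩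
      · have h3 := (pref x hx n le_rfl).1 h1
        have : z = x := funext fun i => h3 i i.2
        rw [this]
        exact hx
      · cases h
  · intro hz
    refine Or.inr ⟨LNode.pre z n, LNode.empty, mem_lrules.2 (Or.inl ⟨z, hz, rfl, rfl, rfl⟩),
      (pref z hz n le_rfl).2 fun i _ => rfl, allows_cases.2 (Or.inl ?_)⟩
    exact trivial

end Pool.Agent.H723.Tree
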