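import Pool.Agent.H723.Tree.KissDefs
import Pool.Agent.H723.Tree.Count
import Pool.Agent.H723.Tree.List

/-! Kissing configurations which are generated by decomposable systems. -/

set_option autoImplicit false

namespace Pool.Agent.H723.Tree

open Finset

variable {n : ℕ}

/-- the vector with the given coordinates -/
noncomputable def vec (b : OrthonormalBasis (Fin n) ℝ (EuclideanSpace ℝ (Fin n))) (z : Fin n → ℝ) :
    EuclideanSpace ℝ (Fin n) := b.repr.symm (WithLp.toLp 2 z)

theorem repr_vec (b : OrthonormalBasis (Fin n) ℝ (EuclideanSpace ℝ (Fin n))) (z : Fin n → ℝ) :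
    (fun i => b.repr (vec b z) i) = z := by
  unfold vec
  rw [LinearIsometryEquiv.apply_symm_apply]

theorem vec_repr (b : OrthonormalBasis (Fin n) ℝ (EuclideanSpace ℝ (Fin n)))
    (x : EuclideanSpace ℝ (Fin n)) : vec b (fun i => b.repr x i) = x := by
  unfold vec
  exact b.repr.symm_apply_apply x

theorem inner_vec (b : OrthonormalBasis (Fin n) ℝ (EuclideanSpace ℝ (Fin n))) (z w : Fin n → ℝ) :
    inner ℝ (vec b z) (vec b w) = ∑ i, z i * w i := by
  unfold vec
  rw [LinearIsometryEquiv.inner_map_map, PiLp.inner_apply]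
  apply Finset.sum_congr rfl
  intro i _
  simp [mul_comm]

theorem card_restr {b : OrthonormalBasis (Fin n) ℝ (EuclideanSpace ℝ (Fin n))} (hn : 1 ≤ n)
    (Y : Finset (Fin n → ℝ)) (D : Finset (Fin n)) (hY : ∀ x ∈ Y, ∑ i ∈ D, x i ^ 2 ≤ 1 / 2)
    (hfar : ∀ x ∈ Y, ∀ y ∈ Y, (∀ i ∈ D, x i = y i) ∨ 1 ≤ ∑ i ∈ D, (x i - y i) ^ 2) :
    (Y.image (restr (0 : ℝ) D)).card ≤ 2 * n := by
  classical
  have sq : ∀ x : Fin n → ℝ, ∑ i, restr 0 D x i * restr 0 D x i = ∑ i ∈ D, x i ^ 2 := by
    intro x
    rw [← Finset.sum_subset (Finset.subset_univ D) (fun i _ hi => by simp [restr, hi])]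
    apply Finset.sum_congr rfl
    intro i hi
    simp [restr, hi, sq]
  have key : ∀ x ∈ Y, ∀ y ∈ Y, restr (0 : ℝ) D x ≠ restr 0 D y →
      inner ℝ (vec b (restr 0 D x)) (vec b (restr 0 D y)) ≤ 0 := by
    intro x hx y hy hxy
    rw [inner_vec]
    rcases hfar x hx y hy with h | h
    · exfalso
      apply hxy
      funext i
      by_cases hi : i ∈ D
      · simp [restr, hi, h i hi]
      · simp [restr, hi]
    · have e : ∑ i, restr 0 D x i * restr 0 D y i = ∑ i ∈ D, x i * y i := by
        rw [← Finset.sum_subset (Finset.subset_univ D) (fun i _ hi => by simp [restr, hi])]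
        apply Finset.sum_congr rfl
        intro i hi
        simp [restr, hi]
      rw [e]
      have h1 : ∑ i ∈ D, (x i - y i) ^ 2 =
          ∑ i ∈ D, x i ^ 2 + ∑ i ∈ D, y i ^ 2 - 2 * ∑ i ∈ D, x i * y i := by
        rw [Finset.mul_sum, ← Finset.sum_add_distrib, ← Finset.sum_sub_distrib]
        apply Finset.sum_congr rfl
        intro i _
        ring
      have h2 := hY x hx
      have h3 := hY y hy
      linarith
  by_cases h0 : ∃ x ∈ Y, restr (0 : ℝ) D x = 0
  · -- then all restrictions vanish
    obtain ⟨x, hx, hx0⟩ := h0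
    have : Y.image (restr (0 : ℝ) D) ⊆ {0} := by
      intro z hz
      obtain ⟨y, hy, rfl⟩ := Finset.mem_image.1 hz
      rw [Finset.mem_singleton]
      by_contra hne
      rcases hfar x hx y hy with h | h
      · apply hne
        rw [← hx0]
        funext i
        by_cases hi : i ∈ D
        · simp [restr, hi, h i hi]
        · simp [restr, hi]
      · have hx' : ∀ i ∈ D, x i = 0 := by
          intro i hi
          have := congrFun hx0 i
          simpa [restr, hi] using this
        have h1 : ∑ i ∈ D, (x i - y i) ^ 2 = ∑ i ∈ D, y i ^ 2 := by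
          apply Finset.sum_congr rfl
          intro i hi
          rw [hx' i hi]
          ring
        have h2 := hY y hy
        linarith
    calc (Y.image (restr (0 : ℝ) D)).card ≤ ({0} : Finset (Fin n → ℝ)).card :=
          Finset.card_le_card this
      _ ≤ 2 * n := by rw [Finset.card_singleton]; omega
  · push Not at h0
    have hinj : Function.Injective (vec b) := by
      intro z w hzw
      rw [← repr_vec b z, ← repr_vec b w, hzw]
    rw [← Finset.card_image_of_injective _ hinj]
    refine card_obtuse n (EuclideanSpace ℝ (Fin n)) (by simp) _ ?_ ?_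
    · intro v hv
      obtain ⟨z, hz, rfl⟩ := Finset.mem_image.1 hv
      obtain ⟨x, hx, rfl⟩ := Finset.mem_image.1 hz
      intro h
      apply h0 x hx
      rw [← repr_vec b (restr 0 D x), h]
      funext i
      simp
    · intro v hv w hw hvw
      obtain ⟨z, hz, rfl⟩ := Finset.mem_image.1 hv
      obtain ⟨x, hx, rfl⟩ := Finset.mem_image.1 hz
      obtain ⟨z', hz', rfl⟩ := Finset.mem_image.1 hw
      obtain ⟨y, hy, rfl⟩ := Finset.mem_image.1 hz'
      exact key x hx y hy (fun h => hvw (by rw [h]))

/-- **Kissing configurations are incompressible.** -/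
theorem kissing_le (b : OrthonormalBasis (Fin n) ℝ (EuclideanSpace ℝ (Fin n)))
    (G : Sys (Fin n) ℝ) (X : Finset (EuclideanSpace ℝ (Fin n))) (hX : IsKissing X)
    (hG : Generates b G 1 X) : X.card ≤ 14 * n ^ 3 * (G.rules.card + 1) := by
  classical
  rcases Nat.eq_zero_or_pos n with rfl | hn
  · have : X = ∅ := by
      rw [Finset.eq_empty_iff_forall_notMem]
      intro x hx
      have h1 := hX.1 x hx
      have h2 : x = 0 := Subsingleton.elim _ _
      rw [h2, norm_zero] at h1
      norm_num at h1
    rw [this]
    simp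
  -- coordinates
  set co : EuclideanSpace ℝ (Fin n) → Fin n → ℝ := fun x i => b.repr x i with hco
  have hcoinj : Function.Injective co := by
    intro x y hxy
    rw [← vec_repr b x, ← vec_repr b y]
    change vec b (co x) = vec b (co y)
    rw [hxy]
  have hin : ∀ x y, inner ℝ x y = ∑ i, co x i * co y i := by
    intro x y
    rw [← inner_vec b, hco]
    simp only [vec_repr]
  have hsum : ∀ x ∈ X, ∑ i, co x i ^ 2 = 1 := by
    intro x hx
    have h1 := hin x x
    rw [real_inner_self_eq_norm_sq, hX.1 x hx] at h1
    rw [one_pow] at h1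
    rw [h1]
    apply Finset.sum_congr rfl
    intro i _
    ring
  have hdist : ∀ x ∈ X, ∀ y ∈ X, x ≠ y → 1 ≤ ∑ i, (co x i - co y i) ^ 2 := by
    intro x hx y hy hxy
    have h1 := hX.2 x hx y hy hxy
    rw [hin] at h1
    have h2 : ∑ i, (co x i - co y i) ^ 2 =
        ∑ i, co x i ^ 2 + ∑ i, co y i ^ 2 - 2 * ∑ i, co x i * co y i := by
      rw [Finset.mul_sum, ← Finset.sum_add_distrib, ← Finset.sum_sub_distrib]
      apply Finset.sum_congr rfl
      intro i _
      ring
    rw [h2, hsum x hx, hsum y hy]
    linarith
  set Y := X.image co with hYdef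
  have hYcard : Y.card = X.card := Finset.card_image_of_injective _ hcoinj
  have hYsum : ∀ z ∈ Y, ∑ i, z i ^ 2 = 1 := by
    intro z hz
    obtain ⟨x, hx, rfl⟩ := Finset.mem_image.1 hz
    exact hsum x hx
  have hYdist : ∀ z ∈ Y, ∀ w ∈ Y, z ≠ w → 1 ≤ ∑ i, (z i - w i) ^ 2 := by
    intro z hz w hw hzw
    obtain ⟨x, hx, rfl⟩ := Finset.mem_image.1 hz
    obtain ⟨y, hy, rfl⟩ := Finset.mem_image.1 hw
    exact hdist x hx y hy (fun h => hzw (by rw [h]))
  have hYgen : ∀ z, z ∈ Y ↔ Gen G ∅ G.root Finset.univ z := by
    intro z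
    have h1 : z ∈ Y ↔ vec b z ∈ X := by
      constructor
      · intro h
        obtain ⟨x, hx, rfl⟩ := Finset.mem_image.1 h
        rwa [hco, vec_repr]
      · intro h
        exact Finset.mem_image.2 ⟨vec b z, h, repr_vec b z⟩
    have h2 := hG.mem_iff (vec b z)
    rw [repr_vec, allows_iff, hG.dom_root] at h2
    rw [h1, ← h2]
    rfl
  -- the points with a large coordinate
  set Y0 := Y.filter (fun z => ∃ i, 1 / 2 < z i ^ 2) with hY0
  set Y1 := Y.filter (fun z => ¬ ∃ i, 1 / 2 < z i ^ 2) with hY1
  have hc0 : Y0.card ≤ 2 * n * (2 * n + 1) := by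
    have hsub : Y0 ⊆ (Finset.univ : Finset (Fin n × Bool)).biUnion (fun q =>
        Y.filter (fun z => 1 / 2 < z q.1 ^ 2 ∧ (0 < z q.1 ↔ q.2 = true))) := by
      intro z hz
      rw [hY0, Finset.mem_filter] at hz
      obtain ⟨hz, i, hi⟩ := hz
      rw [Finset.mem_biUnion]
      by_cases hs : 0 < z i
      · exact ⟨(i, true), Finset.mem_univ _, by rw [Finset.mem_filter]; exact ⟨hz, hi, by simp [hs]⟩⟩
      · exact ⟨(i, false), Finset.mem_univ _, by rw [Finset.mem_filter]; exact ⟨hz, hi, by simpa using hs⟩⟩
    have hcls : ∀ q : Fin n × Bool,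
        (Y.filter (fun z => 1 / 2 < z q.1 ^ 2 ∧ (0 < z q.1 ↔ q.2 = true))).card ≤ 2 * n + 1 := by
      rintro ⟨i, s⟩
      set W := Y.filter (fun z => 1 / 2 < z i ^ 2 ∧ (0 < z i ↔ s = true)) with hW
      have hprod : ∀ z ∈ W, ∀ w ∈ W, 1 / 2 < z i * w i := by
        intro z hz w hw
        rw [hW, Finset.mem_filter] at hz hw
        obtain ⟨-, hz1, hz2⟩ := hz
        obtain ⟨-, hw1, hw2⟩ := hw
        have hsq : 1 / 4 < (z i * w i) ^ 2 := by
          rw [mul_pow]
          nlinarith
        have hpos : 0 < z i * w i := by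
          cases s with
          | true =>
            exact mul_pos (hz2.2 rfl) (hw2.2 rfl)
          | false =>
            have a1 : ¬ 0 < z i := fun h => by simpa using hz2.1 h
            have a2 : ¬ 0 < w i := fun h => by simpa using hw2.1 h
            have b1 : z i < 0 := by
              rcases lt_or_eq_of_le (not_lt.1 a1) with h | h
              · exact h
              · rw [h] at hz1; norm_num at hz1
            have b2 : w i < 0 := by
              rcases lt_or_eq_of_le (not_lt.1 a2) with h | h
              · exact h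
              · rw [h] at hw1; norm_num at hw1
            exact mul_pos_of_neg_of_neg b1 b2
        nlinarith
      -- project away the coordinate `i`
      have hinner : ∀ z ∈ W, ∀ w ∈ W, z ≠ w →
          inner ℝ (vec b (restr 0 (Finset.univ.erase i) z))
            (vec b (restr 0 (Finset.univ.erase i) w)) < 0 := by
        intro z hz w hw hzw
        rw [inner_vec]
        have hzY : z ∈ Y := (Finset.mem_filter.1 hz).1
        have hwY : w ∈ Y := (Finset.mem_filter.1 hw).1
        have h1 := hYdist z hzY w hwY hzw
        have h2 : ∑ j, (z j - w j) ^ 2 = ∑ j, z j ^ 2 + ∑ j, w j ^ 2 - 2 * ∑ j, z j * w j := by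
          rw [Finset.mul_sum, ← Finset.sum_add_distrib, ← Finset.sum_sub_distrib]
          apply Finset.sum_congr rfl
          intro i _
          ring
        rw [h2, hYsum z hzY, hYsum w hwY] at h1
        have h3 : ∑ j, restr 0 (Finset.univ.erase i) z j * restr 0 (Finset.univ.erase i) w j =
            ∑ j, z j * w j - z i * w i := by
          rw [← Finset.sum_erase_add _ _ (Finset.mem_univ i),
            ← Finset.sum_erase_add (a := i) (s := Finset.univ) (fun j => z j * w j)
              (Finset.mem_univ i)]
          have e1 : restr 0 (Finset.univ.erase i) z i * restr 0 (Finset.univ.erase i) w i = 0 := by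
            simp [restr]
          rw [e1, add_zero, add_sub_cancel_right]
          apply Finset.sum_congr rfl
          intro j hj
          simp only [restr, hj, if_true]
        rw [h3]
        have h4 := hprod z hz w hw
        linarith
      have hinj : Set.InjOn (fun z => vec b (restr 0 (Finset.univ.erase i) z)) (W : Set (Fin n → ℝ)) := by
        intro z hz w hw hzw
        by_contra hne
        have h1 := hinner z hz w hw hne
        simp only at hzw
        rw [hzw] at h1
        have h2 : 0 ≤ inner ℝ (vec b (restr 0 (Finset.univ.erase i) w))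
            (vec b (restr 0 (Finset.univ.erase i) w)) := real_inner_self_nonneg
        linarith
      rw [← Finset.card_image_of_injOn hinj]
      set W' := W.image (fun z => vec b (restr 0 (Finset.univ.erase i) z)) with hW'
      have h5 : (W'.erase 0).card ≤ 2 * n := by
        refine card_obtuse n (EuclideanSpace ℝ (Fin n)) (by simp) _ ?_ ?_
        · intro v hv
          exact Finset.ne_of_mem_erase hv
        · intro v hv w hw hvw
          obtain ⟨z, hz, rfl⟩ := Finset.mem_image.1 (Finset.mem_of_mem_erase hv)
          obtain ⟨z', hz', rfl⟩ := Finset.mem_image.1 (Finset.mem_of_mem_erase hw)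
          exact (hinner z hz z' hz' (fun h => hvw (by rw [h]))).le
      have h6 := Finset.pred_card_le_card_erase (s := W') (a := 0)
      omega
    calc Y0.card ≤ _ := Finset.card_le_card hsub
      _ ≤ ∑ q : Fin n × Bool, (Y.filter (fun z => 1 / 2 < z q.1 ^ 2 ∧ (0 < z q.1 ↔ q.2 = true))).card :=
          Finset.card_biUnion_le
      _ ≤ ∑ _q : Fin n × Bool, (2 * n + 1) := Finset.sum_le_sum fun q _ => hcls q
      _ = 2 * n * (2 * n + 1) := by
          rw [Finset.sum_const, Finset.card_univ, Fintype.card_prod, Fintype.card_fin,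
            Fintype.card_bool, smul_eq_mul]
          ring
  -- the other points
  have hc1 : Y1.card ≤ (G.rules.card + 1) * (2 * n) ^ 3 := by
    let heavy : (Fin n → ℝ) → Finset (Fin n) → Prop := fun z D => 1 < D.card ∧ 1 / 2 < ∑ i ∈ D, z i ^ 2
    let far : Finset (Fin n) → (Fin n → ℝ) → (Fin n → ℝ) → Prop :=
      fun D z w => 1 ≤ ∑ i ∈ D, (z i - w i) ^ 2
    obtain ⟨κ, inst, cl, parts, hκ, hparts, hlight, hclose⟩ := cover G heavy
      (fun z h => by simp [heavy] at h)
      (fun v z hv h => by have := hG.leaf_card v z hv; exact absurd h.1 (by omega))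
      far (fun D x y x' y' hx hy h => by
        have : ∑ i ∈ D, (x' i - y' i) ^ 2 = ∑ i ∈ D, (x i - y i) ^ 2 :=
          Finset.sum_congr rfl fun i hi => by rw [hx i hi, hy i hi]
        simp only [far] at h ⊢
        rw [this]
        exact h)
      1 ∅ Finset.univ (by intro i; rw [hG.dom_root]; simp) (by
        intro x y hx hy D _ hxy hne
        have h1 := (hYgen x).2 hx
        have h2 := (hYgen y).2 hy
        obtain ⟨i, hi, hne⟩ := hne
        have h3 := hYdist x h1 y h2 (fun h => hne (by rw [h]))
        rw [← Finset.sum_subset (Finset.subset_univ D) (by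
          intro j _ hj
          rw [hxy j (Finset.mem_sdiff.2 ⟨Finset.mem_univ _, hj⟩), sub_self]
          ring)] at h3
        exact h3)
    have hfew : ∀ z ∈ Y, Few (heavy z) Finset.univ 1 := by
      intro z hz D _ hD hE
      have h1 := hYsum z hz
      rw [← Finset.sum_sdiff (Finset.subset_univ D)] at h1
      have h2 := hD.2
      have h3 := hE.2
      linarith
    have hY1Y : ∀ z ∈ Y1, z ∈ Y := fun z hz => (Finset.mem_filter.1 hz).1
    have hcls : ∀ c : κ, (Y1.filter (fun z => cl z = c)).card ≤ (2 * n) ^ 3 := by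
      intro c
      have h1 := card_le_pow (0 : ℝ) (Y1.filter (fun z => cl z = c)) (parts c) (2 * n)
        (hparts c).sup (by
          intro D hD
          refine card_restr (b := b) hn _ D ?_ ?_
          · intro z hz
            rw [Finset.mem_filter] at hz
            obtain ⟨hz, rfl⟩ := hz
            have hl := hlight z ((hYgen z).1 (hY1Y z hz)) (hfew z (hY1Y z hz)) D hD
            by_contra hcon
            push Not at hcon
            apply hl
            refine ⟨?_, hcon⟩
            by_contra hcard
            push Not at hcard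
            rcases Nat.lt_or_ge 0 D.card with h | h
            · obtain ⟨i, rfl⟩ := Finset.card_eq_one.1 (le_antisymm hcard h)
              rw [Finset.sum_singleton] at hcon
              exact (Finset.mem_filter.1 hz).2 ⟨i, hcon⟩
            · have : D = ∅ := Finset.card_eq_zero.1 (Nat.le_zero.1 h)
              rw [this, Finset.sum_empty] at hcon
              norm_num at hcon
          · intro z hz w hw
            rw [Finset.mem_filter] at hz hw
            refine hclose z w ((hYgen z).1 (hY1Y z hz.1)) ((hYgen w).1 (hY1Y w hw.1))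
              (hfew z (hY1Y z hz.1)) (hfew w (hY1Y w hw.1)) (hz.2.trans hw.2.symm) D ?_
            rw [hz.2]
            exact hD)
      refine h1.trans (Nat.pow_le_pow_right (by omega) ?_)
      exact (hparts c).card
    calc Y1.card = ∑ c : κ, (Y1.filter (fun z => cl z = c)).card :=
          Finset.card_eq_sum_card_fiberwise (fun z _ => Finset.mem_univ _)
      _ ≤ ∑ _c : κ, (2 * n) ^ 3 := Finset.sum_le_sum fun c _ => hcls c
      _ = Fintype.card κ * (2 * n) ^ 3 := by rw [Finset.sum_const, Finset.card_univ, smul_eq_mul]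
      _ ≤ (G.rules.card + 1) * (2 * n) ^ 3 := by
          apply Nat.mul_le_mul_right
          simpa using hκ
  have hsplit : Y0.card + Y1.card = Y.card := Finset.card_filter_add_card_filter_not _
  rw [← hYcard, ← hsplit]
  have h1 : 2 * n * (2 * n + 1) ≤ 6 * n ^ 3 * (G.rules.card + 1) := by
    have : 2 * n * (2 * n + 1) ≤ 6 * n ^ 3 := by nlinarith [Nat.mul_le_mul hn hn]
    nlinarith [Nat.zero_le (6 * n ^ 3 * G.rules.card)]
  nlinarith

/-- Every finite set is generated by a system which lists its points. -/
theorem exists_list (b : OrthonormalBasis (Fin n) ℝ (EuclideanSpace ℝ (Fin n)))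
    (X : Finset (EuclideanSpace ℝ (Fin n))) :
    ∃ G : Sys (Fin n) ℝ, Generates b G 1 X ∧ G.rules.card ≤ (n + 1) * X.card := by
  classical
  set Y : Finset (Fin n → ℝ) := X.image (fun x i => b.repr x i) with hY
  refine ⟨listSys Y, ⟨rfl, fun v x h => listSys_leaf Y v x h, ?_⟩, ?_⟩
  · intro x
    rw [listSys_allows, hY, Finset.mem_image]
    constructor
    · intro hx
      exact ⟨x, hx, rfl⟩
    · rintro ⟨y, hy, hyx⟩
      have : y = x := by
        rw [← vec_repr b x, ← vec_repr b y, hyx]
      rw [← this]
      exact hy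
  · refine (listSys_rules Y).trans ?_
    exact Nat.mul_le_mul_left _ Finset.card_image_le

end Pool.Agent.H723.Tree
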