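import Mathlib.Analysis.SpecialFunctions.Pow.Asymptotics
import Pool.Agent.H723.Tree.Kissing

/-! Growth statements for the complexity of kissing configurations. -/

set_option autoImplicit false

namespace Pool.Agent.H723.Tree

open Finset Filter
open scoped Topology

variable {n : ℕ}

theorem complexity_set_nonempty (X : Finset (EuclideanSpace ℝ (Fin n))) :
    {P | ∃ (b : OrthonormalBasis (Fin n) ℝ (EuclideanSpace ℝ (Fin n))) (G : Sys (Fin n) ℝ),
    Generates b G 1 X ∧ G.rules.card = P}.Nonempty := by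
  obtain ⟨G, hG, _⟩ := exists_list (EuclideanSpace.basisFun (Fin n) ℝ) X
  exact ⟨G.rules.card, EuclideanSpace.basisFun (Fin n) ℝ, G, hG, rfl⟩

theorem complexity_le (X : Finset (EuclideanSpace ℝ (Fin n))) :
    complexity X ≤ (n + 1) * X.card := by
  obtain ⟨G, hG, h⟩ := exists_list (EuclideanSpace.basisFun (Fin n) ℝ) X
  have hm : G.rules.card ∈ {P | ∃ (b : OrthonormalBasis (Fin n) ℝ (EuclideanSpace ℝ (Fin n)))
      (G : Sys (Fin n) ℝ), Generates b G 1 X ∧ G.rules.card = P} :=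
    ⟨EuclideanSpace.basisFun (Fin n) ℝ, G, hG, rfl⟩
  exact (Nat.sInf_le hm).trans h

theorem card_le_complexity (X : Finset (EuclideanSpace ℝ (Fin n))) (hX : IsKissing X) :
    X.card ≤ 14 * n ^ 3 * (complexity X + 1) := by
  obtain ⟨b, G, hG, h⟩ := Nat.sInf_mem (complexity_set_nonempty X)
  have := kissing_le b G X hX hG
  rw [h] at this
  exact this

theorem poly_le_exp {ε : ℝ} (hε : 0 < ε) :
    ∀ᶠ n : ℕ in atTop, (14 * ((n : ℝ) + 1) ^ 3) ≤ (2 : ℝ) ^ (ε * n) := by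
  have hb : 1 < (2 : ℝ) ^ ε := Real.one_lt_rpow (by norm_num) hε
  have h1 := tendsto_pow_const_div_const_pow_of_one_lt 3 hb
  have h2 : Tendsto (fun n : ℕ => 14 * 8 * ((n : ℝ) ^ 3 / ((2 : ℝ) ^ ε) ^ n)) atTop (𝓝 0) := by
    simpa using h1.const_mul (14 * 8)
  filter_upwards [h2.eventually (gt_mem_nhds one_pos), eventually_ge_atTop 1] with n hn hn1
  have hpos : 0 < ((2 : ℝ) ^ ε) ^ n := by positivity
  have h3 : ((2 : ℝ) ^ ε) ^ n = (2 : ℝ) ^ (ε * n) := by
    rw [Real.rpow_mul (by norm_num), Real.rpow_natCast]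
  rw [← h3]
  have h4 : 14 * 8 * (n : ℝ) ^ 3 < ((2 : ℝ) ^ ε) ^ n := by
    rw [← mul_div_assoc, div_lt_one hpos] at hn
    exact hn
  have h5 : ((n : ℝ) + 1) ^ 3 ≤ 8 * (n : ℝ) ^ 3 := by
    have : (1 : ℝ) ≤ n := by exact_mod_cast hn1
    have h6 : (n : ℝ) + 1 ≤ 2 * n := by linarith
    calc ((n : ℝ) + 1) ^ 3 ≤ (2 * n) ^ 3 := by gcongr
      _ = 8 * (n : ℝ) ^ 3 := by ring
  linarith

/-- Size and complexity of a kissing configuration agree up to subexponential factors. -/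
theorem growth {ε : ℝ} (hε : 0 < ε) : ∀ᶠ n : ℕ in atTop,
    ∀ X : Finset (EuclideanSpace ℝ (Fin n)), IsKissing X →
      (X.card : ℝ) ≤ (2 : ℝ) ^ (ε * n) * (complexity X + 1) ∧
      (complexity X : ℝ) ≤ (2 : ℝ) ^ (ε * n) * X.card := by
  filter_upwards [poly_le_exp hε] with n hn X hX
  have hn0 : (0 : ℝ) ≤ n := Nat.cast_nonneg n
  constructor
  · have h1 : (X.card : ℝ) ≤ 14 * n ^ 3 * (complexity X + 1) := by
      exact_mod_cast card_le_complexity X hX
    refine h1.trans (mul_le_mul_of_nonneg_right ?_ (by positivity))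
    refine le_trans ?_ hn
    have : (n : ℝ) ^ 3 ≤ ((n : ℝ) + 1) ^ 3 := by gcongr; linarith
    linarith
  · have h1 : (complexity X : ℝ) ≤ ((n : ℝ) + 1) * X.card := by
      exact_mod_cast complexity_le X
    refine h1.trans (mul_le_mul_of_nonneg_right ?_ (by positivity))
    refine le_trans ?_ hn
    have h2 : (1 : ℝ) ≤ (n : ℝ) + 1 := by linarith
    have h3 : ((n : ℝ) + 1) ≤ ((n : ℝ) + 1) ^ 3 := by
      calc ((n : ℝ) + 1) = ((n : ℝ) + 1) ^ 1 := (pow_one _).symm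
        _ ≤ ((n : ℝ) + 1) ^ 3 := pow_le_pow_right₀ h2 (by norm_num)
    have h4 : 0 ≤ ((n : ℝ) + 1) ^ 3 := by positivity
    linarith

end Pool.Agent.H723.Tree
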